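import Pool.Agent.W277.UH.F1

/-!
# Project AL, part 2: iterates of any rational map (job ITER)
-/

set_option autoImplicit false

namespace Pool.Agent.X261.AL

open Finset Polynomial Pool.Agent.W277.UH

universe u v w

/-- `Q ^ d F (P / Q)` -/
noncomputable def hm1 {A : Type*} [CommRing A] (d : ℕ) (F P Q : A[X]) : A[X] :=
  ∑ i ∈ range (d + 1), C (F.coeff i) * P ^ i * Q ^ (d - i)

section
variable {K : Type*} [Field K]

lemma hm1_eval (d : ℕ) (F P Q : K[X]) (x : K) :
    (hm1 d F P Q).eval x = ∑ i ∈ range (d + 1), F.coeff i * P.eval x ^ i * Q.eval x ^ (d - i) := by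
  unfold hm1
  rw [eval_finsetSum]
  refine Finset.sum_congr rfl fun i _ => ?_
  simp

lemma sum_ne (d : ℕ) (F : K[X]) (hF : F.natDegree ≤ d) (a b : K) (hb : b ≠ 0) :
    ∑ i ∈ range (d + 1), F.coeff i * a ^ i * b ^ (d - i) = b ^ d * F.eval (a / b) := by
  rw [eval_eq_sum_range' (Nat.lt_succ_of_le hF), Finset.mul_sum]
  refine Finset.sum_congr rfl fun i hi => ?_
  have hi' : i ≤ d := Nat.lt_succ_iff.1 (Finset.mem_range.1 hi)
  obtain ⟨e, rfl⟩ := Nat.exists_eq_add_of_le hi'
  rw [Nat.add_sub_cancel_left, div_pow, pow_add]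
  field_simp

lemma sum_zero (d : ℕ) (F : K[X]) (a b : K) (hb : b = 0) :
    ∑ i ∈ range (d + 1), F.coeff i * a ^ i * b ^ (d - i) = F.coeff d * a ^ d := by
  rw [Finset.sum_eq_single d]
  · simp
  · intro i hi hne
    have hi' : i < d := lt_of_le_of_ne (Nat.lt_succ_iff.1 (Finset.mem_range.1 hi)) hne
    rw [hb, zero_pow (by omega), mul_zero]
  · intro h
    exact absurd (Finset.mem_range.2 (Nat.lt_succ_self d)) h

lemma hm1_map {L : Type*} [Field L] (φ : K →+* L) (d : ℕ) (F P Q : K[X]) :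
    (hm1 d F P Q).map φ = hm1 d (F.map φ) (P.map φ) (Q.map φ) := by
  unfold hm1
  rw [Polynomial.map_sum]
  refine Finset.sum_congr rfl fun i _ => ?_
  simp

lemma hm1_coeff (d N : ℕ) (F P Q : K[X]) (hP : P.natDegree ≤ N) (hQ : Q.natDegree ≤ N) :
    (hm1 d F P Q).coeff (d * N) =
      ∑ i ∈ range (d + 1), F.coeff i * P.coeff N ^ i * Q.coeff N ^ (d - i) := by
  unfold hm1
  rw [finsetSum_coeff]
  refine Finset.sum_congr rfl fun i hi => ?_
  have hi' : i ≤ d := Nat.lt_succ_iff.1 (Finset.mem_range.1 hi)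
  rw [mul_assoc, coeff_C_mul, mul_assoc]
  congr 1
  have h1 : d * N = i * N + (d - i) * N := by
    rw [← Nat.add_mul, Nat.add_sub_cancel' hi']
  rw [h1, coeff_mul_add_eq_of_natDegree_le, coeff_pow_of_natDegree_le hP, coeff_pow_of_natDegree_le hQ]
  · exact natDegree_pow_le.trans (Nat.mul_le_mul le_rfl hP)
  · exact natDegree_pow_le.trans (Nat.mul_le_mul le_rfl hQ)

lemma hm1_deg (d N : ℕ) (F P Q : K[X]) (hP : P.natDegree ≤ N) (hQ : Q.natDegree ≤ N) :
    (hm1 d F P Q).natDegree ≤ d * N := by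
  unfold hm1
  refine natDegree_sum_le_of_forall_le _ _ fun i hi => ?_
  have hi' : i ≤ d := Nat.lt_succ_iff.1 (Finset.mem_range.1 hi)
  have h1 : d * N = i * N + (d - i) * N := by
    rw [← Nat.add_mul, Nat.add_sub_cancel' hi']
  rw [mul_assoc, h1]
  refine (natDegree_C_mul_le _ _).trans (natDegree_mul_le.trans (Nat.add_le_add ?_ ?_))
  · exact natDegree_pow_le.trans (Nat.mul_le_mul le_rfl hP)
  · exact natDegree_pow_le.trans (Nat.mul_le_mul le_rfl hQ)

lemma cop1_iff (P Q : K[X]) : IsCoprime P Q ↔ ∀ a : AlgebraicClosure K,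
    ¬ ((P.map (algebraMap K (AlgebraicClosure K))).eval a = 0 ∧
      (Q.map (algebraMap K (AlgebraicClosure K))).eval a = 0) := by
  rw [Polynomial.isCoprime_iff_aeval_ne_zero_of_isAlgClosed K (AlgebraicClosure K)]
  refine forall_congr' fun a => ?_
  rw [eval_map_algebraMap, eval_map_algebraMap]
  tauto

lemma coeff_or {d : ℕ} (hd : 1 ≤ d) {p q : K[X]} (h : max p.natDegree q.natDegree = d) :
    p.coeff d ≠ 0 ∨ q.coeff d ≠ 0 := by
  rcases le_total p.natDegree q.natDegree with h1 | h1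
  · right
    rw [max_eq_right h1] at h
    rw [← h]
    intro h0
    have h2 : q = 0 := leadingCoeff_eq_zero.1 h0
    rw [h2, natDegree_zero] at h
    omega
  · left
    rw [max_eq_left h1] at h
    rw [← h]
    intro h0
    have h2 : p = 0 := leadingCoeff_eq_zero.1 h0
    rw [h2, natDegree_zero] at h
    omega

lemma not_both {x : K} {P R : K[X]} (h : IsCoprime P R) : P.eval x ≠ 0 ∨ R.eval x ≠ 0 := by
  by_contra hc
  push Not at hc
  obtain ⟨a, b, hab⟩ := h
  have := congrArg (eval x) hab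
  simp [hc.1, hc.2] at this

/-- the two values of the forms are not both zero -/
lemma forms_ne {d : ℕ} (hd : 1 ≤ d) {p q : K[X]} (hpq : IsCoprime p q)
    (h : max p.natDegree q.natDegree = d) (a b : K) (hab : a ≠ 0 ∨ b ≠ 0) :
    (∑ i ∈ range (d + 1), p.coeff i * a ^ i * b ^ (d - i)) ≠ 0 ∨
      (∑ i ∈ range (d + 1), q.coeff i * a ^ i * b ^ (d - i)) ≠ 0 := by
  have hp : p.natDegree ≤ d := h ▸ le_max_left _ _
  have hq : q.natDegree ≤ d := h ▸ le_max_right _ _
  by_cases hb : b = 0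
  · rw [sum_zero d p a b hb, sum_zero d q a b hb]
    have ha : a ≠ 0 := hab.resolve_right (by simp [hb])
    rcases coeff_or hd h with h1 | h1
    · exact Or.inl (mul_ne_zero h1 (pow_ne_zero _ ha))
    · exact Or.inr (mul_ne_zero h1 (pow_ne_zero _ ha))
  · rw [sum_ne d p hp a b hb, sum_ne d q hq a b hb]
    rcases not_both (x := a / b) hpq with h1 | h1
    · exact Or.inl (mul_ne_zero (pow_ne_zero _ hb) h1)
    · exact Or.inr (mul_ne_zero (pow_ne_zero _ hb) h1)

lemma hm1_cop_aux {L : Type*} [Field L] (φ : K →+* L) {d : ℕ} (hd : 1 ≤ d) {p q : K[X]}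
    (hpq : IsCoprime p q) (h : max p.natDegree q.natDegree = d) {P Q : K[X]}
    (hPQ : IsCoprime P Q) (a : L) :
    ¬ (((hm1 d p P Q).map φ).eval a = 0 ∧ ((hm1 d q P Q).map φ).eval a = 0) := by
  rintro ⟨h1, h2⟩
  have h3 : IsCoprime (P.map φ) (Q.map φ) := (isCoprime_map φ).2 hPQ
  have h4 : IsCoprime (p.map φ) (q.map φ) := (isCoprime_map φ).2 hpq
  have h5 : max (p.map φ).natDegree (q.map φ).natDegree = d := by
    rw [natDegree_map, natDegree_map, h]
  rw [hm1_map, hm1_eval] at h1 h2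
  rcases forms_ne hd h4 h5 _ _ (not_both (x := a) h3) with h6 | h6
  · exact h6 h1
  · exact h6 h2

lemma hm1_cop {d : ℕ} (hd : 1 ≤ d) {p q : K[X]} (hpq : IsCoprime p q)
    (h : max p.natDegree q.natDegree = d) {P Q : K[X]} (hPQ : IsCoprime P Q) :
    IsCoprime (hm1 d p P Q) (hm1 d q P Q) :=
  (cop1_iff _ _).2 fun a => hm1_cop_aux _ hd hpq h hPQ a

open Classical in
/-- one step -/
lemma step_val {d : ℕ} {p q : K[X]} (h : max p.natDegree q.natDegree = d)
    (a b : K) (hab : a ≠ 0 ∨ b ≠ 0) :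
    ratP1 p q d (if b = 0 then none else some (a / b)) =
    if (∑ i ∈ range (d + 1), q.coeff i * a ^ i * b ^ (d - i)) = 0 then none else
      some ((∑ i ∈ range (d + 1), p.coeff i * a ^ i * b ^ (d - i)) /
        (∑ i ∈ range (d + 1), q.coeff i * a ^ i * b ^ (d - i))) := by
  have hp : p.natDegree ≤ d := h ▸ le_max_left _ _
  have hq : q.natDegree ≤ d := h ▸ le_max_right _ _
  by_cases hb : b = 0
  · rw [sum_zero d p a b hb, sum_zero d q a b hb, if_pos hb]
    have ha : a ≠ 0 := hab.resolve_right (by simp [hb])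
    have ha' : a ^ d ≠ 0 := pow_ne_zero _ ha
    by_cases hqd : q.coeff d = 0
    · rw [ratP1_none0 p q d hqd, if_pos (by rw [hqd, zero_mul])]
    · rw [ratP1_none p q d hqd, if_neg (mul_ne_zero hqd ha'), mul_div_mul_right _ _ ha']
  · rw [sum_ne d p hp a b hb, sum_ne d q hq a b hb, if_neg hb]
    have hb' : b ^ d ≠ 0 := pow_ne_zero _ hb
    by_cases hqd : q.eval (a / b) = 0
    · rw [ratP1_some0 p q d _ hqd, if_pos (by rw [hqd, mul_zero])]
    · rw [ratP1_some p q d _ hqd, if_neg (mul_ne_zero hb' hqd), mul_div_mul_left _ _ hb']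

open Classical in
lemma ratP1_some' (P R : K[X]) (d : ℕ) (x : K) :
    ratP1 P R d (some x) = if R.eval x = 0 then none else some (P.eval x / R.eval x) := by
  split_ifs with h
  · exact ratP1_some0 _ _ _ _ h
  · exact ratP1_some _ _ _ _ h

open Classical in
lemma ratP1_none' (P R : K[X]) (d : ℕ) :
    ratP1 P R d none = if R.coeff d = 0 then none else some (P.coeff d / R.coeff d) := by
  split_ifs with h
  · exact ratP1_none0 _ _ _ h
  · exact ratP1_none _ _ _ h

end

/-- the iterates of any map -/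
theorem iter_all : ∀ (K : Type u) [Field K] (d : ℕ), 1 ≤ d → ∀ p q : K[X], IsCoprime p q →
  max p.natDegree q.natDegree = d → ∀ l : ℕ, ∃ P R : K[X], IsCoprime P R ∧
    max P.natDegree R.natDegree = d ^ l ∧
    ∀ z : Option K, ratP1 P R (d ^ l) z = (ratP1 p q d)^[l] z := by
  intro K _ d hd p q hpq h l
  induction l with
  | zero =>
    refine ⟨X, 1, isCoprime_one_right, by simp, ?_⟩
    rintro (_ | x)
    · rw [Function.iterate_zero, id, ratP1_none0]
      rw [pow_zero]
      show (1 : K[X]).coeff 1 = 0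
      rw [coeff_one]
      simp
    · rw [Function.iterate_zero, id, ratP1_some _ _ _ _ (by simp)]
      simp
  | succ n ih =>
    obtain ⟨P, R, hPR, hN, hz⟩ := ih
    have hP : P.natDegree ≤ d ^ n := hN ▸ le_max_left _ _
    have hR : R.natDegree ≤ d ^ n := hN ▸ le_max_right _ _
    have hN1 : 1 ≤ d ^ n := Nat.one_le_pow _ _ hd
    have hab := coeff_or hN1 hN
    have hdd : d ^ (n + 1) = d * d ^ n := by ring
    refine ⟨hm1 d p P R, hm1 d q P R, hm1_cop hd hpq h hPR, ?_, ?_⟩
    · rw [hdd]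
      refine le_antisymm (max_le (hm1_deg _ _ _ _ _ hP hR) (hm1_deg _ _ _ _ _ hP hR)) ?_
      rcases forms_ne hd hpq h _ _ hab with h6 | h6
      · rw [← hm1_coeff d (d ^ n) p P R hP hR] at h6
        exact (le_natDegree_of_ne_zero h6).trans (le_max_left _ _)
      · rw [← hm1_coeff d (d ^ n) q P R hP hR] at h6
        exact (le_natDegree_of_ne_zero h6).trans (le_max_right _ _)
    · intro z
      rw [Function.iterate_succ_apply', ← hz z]
      cases z with
      | none =>
        rw [ratP1_none', hdd, hm1_coeff d (d ^ n) p P R hP hR, hm1_coeff d (d ^ n) q P R hP hR,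
          ratP1_none', step_val h _ _ hab]
      | some x =>
        rw [ratP1_some', hm1_eval, hm1_eval, ratP1_some', step_val h _ _ (not_both hPR)]

end Pool.Agent.X261.AL
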