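import Pool.Agent.X328.GN.Stm
import Pool.Agent.X261.AL.Iter

/-!
# Project AL, part 2: explicit form of the job ITER
-/

set_option autoImplicit false

namespace Pool.Agent.X261.AL

open Finset Polynomial Pool.Agent.W277.UH
open Pool.Agent.X328.GN (it hm)

universe u v w

lemma hm_eq_hm1 {A : Type*} [CommRing A] (d : ℕ) (F P Q : A[X]) :
    hm d F P Q = hm1 d F P Q := rfl

/-- composition of two maps -/
lemma comp_all {K : Type*} [Field K] {d N : ℕ} (hd : 1 ≤ d) (hN1 : 1 ≤ N) {p q P R : K[X]}
    (hpq : IsCoprime p q) (h : max p.natDegree q.natDegree = d) (hPR : IsCoprime P R)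
    (hN : max P.natDegree R.natDegree = N) :
    IsCoprime (hm d p P R) (hm d q P R) ∧
    max (hm d p P R).natDegree (hm d q P R).natDegree = d * N ∧
    ∀ z : Option K, ratP1 (hm d p P R) (hm d q P R) (d * N) z =
      ratP1 p q d (ratP1 P R N z) := by
  have hP : P.natDegree ≤ N := hN ▸ le_max_left _ _
  have hR : R.natDegree ≤ N := hN ▸ le_max_right _ _
  have hab := coeff_or hN1 hN
  rw [hm_eq_hm1, hm_eq_hm1]
  refine ⟨hm1_cop hd hpq h hPR, ?_, ?_⟩
  · refine le_antisymm (max_le (hm1_deg _ _ _ _ _ hP hR) (hm1_deg _ _ _ _ _ hP hR)) ?_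
    rcases forms_ne hd hpq h _ _ hab with h6 | h6
    · rw [← hm1_coeff d N p P R hP hR] at h6
      exact (le_natDegree_of_ne_zero h6).trans (le_max_left _ _)
    · rw [← hm1_coeff d N q P R hP hR] at h6
      exact (le_natDegree_of_ne_zero h6).trans (le_max_right _ _)
  · intro z
    cases z with
    | none =>
      rw [ratP1_none', hm1_coeff d N p P R hP hR, hm1_coeff d N q P R hP hR,
        ratP1_none', step_val h _ _ hab]
    | some x =>
      rw [ratP1_some', hm1_eval, hm1_eval, ratP1_some', step_val h _ _ (not_both hPR)]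

/-- the iterates in explicit form -/
theorem iter_explicit (K : Type u) [Field K] (d : ℕ) (hd : 1 ≤ d) (p q : K[X])
    (hco : IsCoprime p q) (hmax : max p.natDegree q.natDegree = d) (l : ℕ) :
    IsCoprime (it d p q l).1 (it d p q l).2 ∧
    max (it d p q l).1.natDegree (it d p q l).2.natDegree = d ^ l ∧
    ∀ z : Option K, ratP1 (it d p q l).1 (it d p q l).2 (d ^ l) z = (ratP1 p q d)^[l] z := by
  induction l with
  | zero =>
    refine ⟨isCoprime_one_right, by simp [it], ?_⟩
    rintro (_ | x)
    · rw [Function.iterate_zero, id, ratP1_none0]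
      rw [pow_zero]
      show (1 : K[X]).coeff 1 = 0
      rw [coeff_one]
      simp
    · rw [Function.iterate_zero, id, ratP1_some _ _ _ _ (by simp [it])]
      simp [it]
  | succ n ih =>
    obtain ⟨hPR, hN, hz⟩ := ih
    have hN1 : 1 ≤ d ^ n := Nat.one_le_pow _ _ hd
    have hdd : d ^ (n + 1) = d * d ^ n := by ring
    obtain ⟨h1, h2, h3⟩ := comp_all hd hN1 hco hmax hPR hN
    refine ⟨h1, by rw [hdd]; exact h2, fun z => ?_⟩
    rw [Function.iterate_succ_apply', ← hz z, hdd]
    exact h3 z

end Pool.Agent.X261.AL
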